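import Pool.Agent.Helper91.SM.Final

/-!
Parallel time `O(a^(1/3) log^4 a)` for stable marriage with incomplete lists and acyclic
preferences.
-/

namespace Pool.Agent.Results.MP_1f33d6_lc.AcyclicCubeRoot

open Pool.Agent.Helper91.SM

/-- One parallel program computes a stable matching of every instance with acyclic preferences in
parallel time `O(s^(1/3) log^4 s)`, where `s` is the size of the instance; the words and the
index ranges of the arrays are bounded by a fixed power of `s + 2`. -/
theorem result : ∃ (P : Prog) (c C : ℕ), ∀ I : SMI, I.Acyclic →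
    I.Stable (fun i j => i < I.nm ∧
      exec ((I.size + 2) ^ c) P I.encode 3 i 0 0 = (j : ℤ) + 1) ∧
    (time ((I.size + 2) ^ c) P I.encode : ℝ) ≤
      C * ((I.size : ℝ) + 2) ^ ((1 : ℝ) / 3) * Real.logb 2 ((I.size : ℝ) + 2) ^ 4 :=
  ⟨Full.full, 64, psize Full.full * 1100000000, fun I hI => Full.main I hI⟩

end Pool.Agent.Results.MP_1f33d6_lc.AcyclicCubeRoot
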