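import Pool.Agent.Helper65.OBP.Fin

/-!
Stable marriage with incomplete lists has the same parallel complexity as the repair of a matching
that has exactly one blocking pair.
-/

namespace Pool.Agent.Results.MP_1f33d6_lc.OneBlockingPair

open Pool.Agent.Helper91.SM Pool.Agent.Helper65.OBP

lemma size_pos_clog (s : ℕ) : 1 ≤ Nat.clog 2 (s + 2) := Nat.clog_pos (by norm_num) (by omega)

lemma clog_lin (s : ℕ) : Nat.clog 2 (14 * s + 4 + 2) ≤ 5 * Nat.clog 2 (s + 2) := by
  have h1 : Nat.clog 2 (14 * s + 4 + 2) ≤ Nat.clog 2 (s + 2) + 4 := by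
    apply Nat.clog_le_of_le_pow
    have := Nat.le_pow_clog (b := 2) (by norm_num) (s + 2)
    rw [pow_add]
    omega
  have := size_pos_clog s
  omega

/-- forget the given matching -/
lemma easy {P : Prog} {c : ℕ} {T : ℕ → ℕ} (h : SolvesSMI P c T) :
    SolvesOne (.seq (.assign 3 (.const 0)) P) c (fun s => 1 + T s) := by
  intro I f _
  have h1 : exec ((I.size + 2) ^ c) (.assign 3 (.const 0)) (encodeOne I f) = I.encode := by
    simp only [exec]
    unfold encodeOne
    rw [Function.update_idem]
    funext r i j k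
    by_cases hr : r = 3
    · subst hr
      rw [Function.update_self, enc3 I le_rfl]
      simp [eval, store]
    · rw [Function.update_of_ne hr]
  have h2 : exec ((I.size + 2) ^ c) (.seq (.assign 3 (.const 0)) P) (encodeOne I f) =
      exec ((I.size + 2) ^ c) P I.encode := by
    show exec _ P (exec _ (.assign 3 (.const 0)) (encodeOne I f)) = _
    rw [h1]
  have h3 : time ((I.size + 2) ^ c) (.seq (.assign 3 (.const 0)) P) (encodeOne I f) =
      1 + time ((I.size + 2) ^ c) P I.encode := by
    show 1 + time _ P (exec _ (.assign 3 (.const 0)) (encodeOne I f)) = _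
    rw [h1]
  rw [h2, h3]
  exact ⟨(h I).1, Nat.add_le_add_left (h I).2 1⟩

/-- For every monotone time bound `T`: stable marriage with incomplete lists can be solved in
parallel time `O(T(O(s)) + log s)` if and only if this holds for the restricted problem in which a
matching with exactly one blocking pair is given with the instance, and the man of this pair has
only one woman on his list. -/
theorem result (T : ℕ → ℕ) (hT : Monotone T) :
    (∃ (P : Prog) (c C : ℕ),
      SolvesSMI P c (fun s => C * (T (C * (s + 1)) + Nat.clog 2 (s + 2)))) ↔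
    (∃ (P : Prog) (c C : ℕ),
      SolvesOne P c (fun s => C * (T (C * (s + 1)) + Nat.clog 2 (s + 2)))) := by
  constructor
  · rintro ⟨P, c, C, h⟩
    refine ⟨.seq (.assign 3 (.const 0)) P, c, C + 1, fun I f hf => ?_⟩
    obtain ⟨h1, h2⟩ := easy h I f hf
    refine ⟨h1, h2.trans ?_⟩
    have h3 := size_pos_clog I.size
    have h4 : T (C * (I.size + 1)) ≤ T ((C + 1) * (I.size + 1)) :=
      hT (Nat.mul_le_mul_right _ (by omega))
    show 1 + C * (T (C * (I.size + 1)) + Nat.clog 2 (I.size + 2)) ≤
      (C + 1) * (T ((C + 1) * (I.size + 1)) + Nat.clog 2 (I.size + 2))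
    calc 1 + C * (T (C * (I.size + 1)) + Nat.clog 2 (I.size + 2))
        ≤ (T ((C + 1) * (I.size + 1)) + Nat.clog 2 (I.size + 2)) +
          C * (T ((C + 1) * (I.size + 1)) + Nat.clog 2 (I.size + 2)) := by
          apply Nat.add_le_add (by omega)
          exact Nat.mul_le_mul_left _ (by omega)
      _ = _ := by ring
  · rintro ⟨P, c, C, h⟩
    obtain ⟨q0, hq0⟩ := PB_ex P
    set T' : ℕ → ℕ := fun s => C * (T (C * (s + 1)) + Nat.clog 2 (s + 2)) with hT'
    have hmono : Monotone T' := by
      intro a b hab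
      exact Nat.mul_le_mul_left _ (Nat.add_le_add (hT (Nat.mul_le_mul_left _ (by omega)))
        (Nat.clog_mono_right 2 (by omega)))
    have hw := whole_spec (q := q0 + 4) hmono h (by omega) (hq0 _ (by omega))
    set K := Helper91.SM.psize (pre (q0 + 4) c) * 14 * (4 * c + 5) + 46 + (12 * c + 96) with hK
    refine ⟨_, _, 14 * C + K * (C * 5 + 1), fun I => ⟨(hw I).1, (hw I).2.trans ?_⟩⟩
    set s := I.size
    have h1 := clog_lin s
    have h2 : T (C * (14 * s + 4 + 1)) ≤ T ((14 * C + K * (C * 5 + 1)) * (s + 1)) := by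
      apply hT
      calc C * (14 * s + 4 + 1) ≤ C * (14 * (s + 1)) := Nat.mul_le_mul_left _ (by omega)
        _ = 14 * C * (s + 1) := by ring
        _ ≤ _ := Nat.mul_le_mul_right _ (Nat.le_add_right _ _)
    show K * (C * (T (C * (14 * s + 4 + 1)) + Nat.clog 2 (14 * s + 4 + 2)) +
      Nat.clog 2 (s + 2)) ≤ _
    set X := T ((14 * C + K * (C * 5 + 1)) * (s + 1))
    set l := Nat.clog 2 (s + 2)
    calc K * (C * (T (C * (14 * s + 4 + 1)) + Nat.clog 2 (14 * s + 4 + 2)) + l)
        ≤ K * (C * (X + 5 * l) + l) := by gcongr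
      _ ≤ K * (C * 5 + 1) * (X + l) := by
        have : K * (C * 5 + 1) * (X + l) = K * (C * (X + 5 * l) + l) + K * (4 * C * X + X) := by
          ring
        rw [this]; exact Nat.le_add_right _ _
      _ ≤ (14 * C + K * (C * 5 + 1)) * (X + l) := Nat.mul_le_mul_right _ (Nat.le_add_left _ _)

end Pool.Agent.Results.MP_1f33d6_lc.OneBlockingPair
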